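import Pool.Agent.Helper90.VSLInvariant

namespace Pool.Agent.Results.MP_dfcdcf_gt.VirtualNotInjective

open Pool.Agent.Helper90.VirtualStringLinks

/-- Some nontrivial element of the virtual pure braid group on two strands becomes trivial in the
monoid of virtual string links on two strands up to self-crossing changes; in particular the map
`piV 2` is not injective. -/
theorem result : ∃ β : VP 2, β ≠ VP.one 2 ∧ piV 2 β = piV 2 (VP.one 2) :=
  ⟨Quot.mk _ beta, betaV_ne_one, piV_beta⟩

end Pool.Agent.Results.MP_dfcdcf_gt.VirtualNotInjective
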