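import Pool.Agent.Helper90.VSLInvariant

namespace Pool.Agent.Results.MP_dfcdcf_gt.WeldedNotInjective

open Pool.Agent.Helper90.VirtualStringLinks

/-- Forget that a virtual string link is not yet welded. -/
def toWelded (n : ℕ) : VSLsc n → WSLsc n :=
  Quot.lift (fun D => Quot.mk _ D) fun _ _ h =>
    Quot.sound (h.elim Or.inl fun h => Or.inr (Or.inr h))

theorem toWelded_mk (D : MonotoneDiagram 2) :
    toWelded 2 (piV 2 (Quot.mk _ D)) = piW 2 (Quot.mk _ D) := rfl

/-- Some nontrivial element of the welded pure braid group on two strands becomes trivial in the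
monoid of welded string links on two strands up to self-crossing changes; in particular the map
`piW 2` is not injective. -/
theorem result : ∃ β : WP 2, β ≠ WP.one 2 ∧ piW 2 β = piW 2 (WP.one 2) := by
  refine ⟨Quot.mk _ beta, betaW_ne_one, ?_⟩
  rw [WP.one, ← toWelded_mk, ← toWelded_mk, piV_beta]
  rfl

end Pool.Agent.Results.MP_dfcdcf_gt.WeldedNotInjective
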